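import Pool.Agent.U252.Sp.D

/-!
# A mixed three-direction mesh on which the `C¹` cubic splines have the approximation order four

Every square `[ih, (i+1)h] × [jh, (j+1)h]` of the square grid of spacing `h` is cut into two triangles
by one of its diagonals; `σ i j = true` stands for the diagonal of positive slope (NE) and
`σ i j = false` for the one of negative slope (NW).  `S₃¹(Δ_h)` is the space of the functions in
`C¹(ℝ²)` which are polynomials of total degree at most three on every triangle.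

**Theorem (answer to Q1: yes).** For the checkerboard pattern (NE if `i + j` is even, NW if `i + j` is
odd) the space `S₃¹(Δ_h)` has the approximation order four: for every `f ∈ C⁴(ℝ²)` whose partial
derivatives of order four are bounded by `M` and for every `h > 0` there is `s ∈ S₃¹(Δ_h)` with
`|f - s| ≤ 960 M h⁴` on the plane.  On no pattern is the order greater than four, so `4` is the largest
exponent, for every class of smoothness `C^m`, `4 ≤ m ≤ ω`.

Proof.  For this pattern the grid lines of the squares cross without other lines at the points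
`(ih, jh)` with `i + j` odd, and the four triangles at such a point form the diamond
`|x - ih| + |y - jh| ≤ h`.  These diamonds tile the plane.  (So the mesh is the image of a
four-direction mesh under a similarity, the rotation by 45 degrees.)  On a diamond with centre `0`
and `h = 1` every piecewise cubic `C¹` function is
`p(x, y) + x |x| (a₀ + a₁ x + a₂ y) + y |y| (b₀ + b₁ x + b₂ y)` with a cubic polynomial `p`, and these
16 coefficients are determined by the values and gradients at the four vertices and the normal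
derivatives at the midpoints of the four edges (the element of Fraeijs de Veubeke and Sander, given
here by explicit formulas).  The interpolants on neighbouring diamonds have the same values and
gradients on the common edge, hence they form a `C¹` function, and cubic polynomials are reproduced.
-/

set_option autoImplicit false

open Set Filter Topology MvPolynomial

namespace Pool.Agent.Results.MP_424b4b_an.CheckerboardMesh

open Pool.Agent.U252.Sp

/-- A triangle of the mesh of spacing `h`: the half of the square `[ih, (i+1)h] × [jh, (j+1)h]` below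
(`b = false`) or above (`b = true`) its diagonal, which has positive slope if `σ i j = true` and negative
slope if `σ i j = false`. -/
def triangle (σ : ℤ → ℤ → Bool) (h : ℝ) (i j : ℤ) (b : Bool) : Set (ℝ × ℝ) :=
  {z | (i * h ≤ z.1 ∧ z.1 ≤ (i + 1) * h) ∧ (j * h ≤ z.2 ∧ z.2 ≤ (j + 1) * h) ∧
    match σ i j, b with
    | true, false => z.2 - j * h ≤ z.1 - i * h
    | true, true => z.1 - i * h ≤ z.2 - j * h
    | false, false => (z.1 - i * h) + (z.2 - j * h) ≤ h
    | false, true => h ≤ (z.1 - i * h) + (z.2 - j * h)}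

/-- The space `S₃¹(Δ_h)`: the `C¹` functions on the plane which are polynomials of total degree at most
three on every triangle. -/
def S31 (σ : ℤ → ℤ → Bool) (h : ℝ) : Set (ℝ × ℝ → ℝ) :=
  {s | ContDiff ℝ 1 s ∧ ∀ (i j : ℤ) (b : Bool), ∃ p : MvPolynomial (Fin 2) ℝ,
    p.totalDegree ≤ 3 ∧ ∀ z ∈ triangle σ h i j b, s z = eval ![z.1, z.2] p}

/-- The partial derivative of `f` of order `i` in the first and of order `j` in the second variable. -/
noncomputable def partialDeriv (i j : ℕ) (f : ℝ × ℝ → ℝ) : ℝ × ℝ → ℝ :=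
  (fun g z => fderiv ℝ g z (1, 0))^[i] ((fun g z => fderiv ℝ g z (0, 1))^[j] f)

/-- `‖D⁴ f‖ ≤ M`: all partial derivatives of order four are bounded by `M` on the plane. -/
def D4Le (f : ℝ × ℝ → ℝ) (M : ℝ) : Prop :=
  ∀ i j : ℕ, i + j = 4 → ∀ z, |partialDeriv i j f z| ≤ M

/-- `dist (f, S) ≤ δ` in the maximum norm on the plane: the infimum over `s ∈ S` of `sup |f - s|` is at
most `δ`. -/
def DistLe (f : ℝ × ℝ → ℝ) (S : Set (ℝ × ℝ → ℝ)) (δ : ℝ) : Prop :=
  ∀ ε : ℝ, δ < ε → ∃ s ∈ S, ∀ z, |f z - s z| ≤ ε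

/-- `dist (f, S₃¹(Δ_h)) ≤ C ‖D⁴ f‖ |Δ_h| ^ ρ` for all functions `f` of class `C^m` and all `0 < h ≤ 1`, with
`C` independent of `f` and `h`; `|Δ_h| = √2 h`. -/
def HasOrder (σ : ℤ → ℤ → Bool) (m : WithTop ℕ∞) (ρ : ℝ) : Prop :=
  ∃ C : ℝ, ∀ h : ℝ, 0 < h → h ≤ 1 → ∀ f : ℝ × ℝ → ℝ, ContDiff ℝ m f → ∀ M : ℝ, D4Le f M →
    DistLe f (S31 σ h) (C * M * (√2 * h) ^ ρ)

/-- The checkerboard pattern: NE if `i + j` is even, NW if `i + j` is odd. -/
def checkerboard (i j : ℤ) : Bool := decide (Even (i + j))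

lemma tri_aux {h : ℝ} (f g k : ℝ × ℝ → ℝ) (m n : ℤ) (sx sy : ℝ)
    (T : Set (ℝ × ℝ)) (hT : ∀ z ∈ T, (z.1 / h, z.2 / h) ∈ dia (m, n) ∧
      |z.1 / h - (m + n + 1)| = sx * (z.1 / h - (m + n + 1)) ∧
      |z.2 / h - (m - n)| = sy * (z.2 / h - (m - n))) :
    ∃ p : MvPolynomial (Fin 2) ℝ, p.totalDegree ≤ 3 ∧
      ∀ z ∈ T, sp f g k (z.1 / h, z.2 / h) = eval ![z.1, z.2] p := by
  obtain ⟨G, ⟨p, hp, hG⟩, h1⟩ := deg_gen (co (da f g k (ctr m n))) h (ctr m n) sx sy
  refine ⟨p, hp, fun z hz => ?_⟩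
  obtain ⟨h2, h3, h4⟩ := hT z hz
  rw [(agree f g k (m, n) _ h2).1, ← hG, ← h1 z h3 h4]
  rfl

theorem mem_S31 {h : ℝ} (hh : 0 < h) (f g k : ℝ × ℝ → ℝ) :
    (fun z : ℝ × ℝ => sp f g k (z.1 / h, z.2 / h)) ∈ S31 checkerboard h := by
  refine ⟨(sp_contDiff f g k).comp (by fun_prop), fun i j b => ?_⟩
  have hdiv : ∀ x : ℝ, x = x / h * h := fun x => by field_simp
  by_cases he : Even (i + j)
  · have hσ : checkerboard i j = true := by simp [checkerboard, he]
    obtain ⟨m, hm⟩ := he
    obtain ⟨n, hi⟩ : ∃ n, i = m + n := ⟨i - m, by ring⟩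
    have hj : j = m - n := by omega
    subst hi hj
    cases b with
    | false =>
      refine tri_aux f g k m n (-1) 1 _ fun z hz => ?_
      obtain ⟨⟨h1, h2⟩, ⟨h3, h4⟩, h5⟩ := hz
      rw [hσ] at h5
      simp only at h5
      push_cast at h1 h2 h3 h4 h5
      rw [hdiv z.1] at h1 h2 h5
      rw [hdiv z.2] at h3 h4 h5
      have h1' := le_of_mul_le_mul_right h1 hh
      have h2' := le_of_mul_le_mul_right h2 hh
      have h3' := le_of_mul_le_mul_right h3 hh
      have h4' := le_of_mul_le_mul_right h4 hh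
      rw [← sub_mul, ← sub_mul] at h5
      have h5' := le_of_mul_le_mul_right h5 hh
      refine ⟨⟨?_, ?_, ?_, ?_⟩, ?_, ?_⟩
      · simp only; linarith
      · simp only; linarith
      · simp only; linarith
      · simp only; linarith
      · rw [abs_of_nonpos (by linarith)]; ring
      · rw [abs_of_nonneg (by linarith)]; ring
    | true =>
      refine tri_aux f g k m (n - 1) 1 (-1) _ fun z hz => ?_
      obtain ⟨⟨h1, h2⟩, ⟨h3, h4⟩, h5⟩ := hz
      rw [hσ] at h5
      simp only at h5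
      push_cast at h1 h2 h3 h4 h5 ⊢
      rw [hdiv z.1] at h1 h2 h5
      rw [hdiv z.2] at h3 h4 h5
      have h1' := le_of_mul_le_mul_right h1 hh
      have h2' := le_of_mul_le_mul_right h2 hh
      have h3' := le_of_mul_le_mul_right h3 hh
      have h4' := le_of_mul_le_mul_right h4 hh
      rw [← sub_mul, ← sub_mul] at h5
      have h5' := le_of_mul_le_mul_right h5 hh
      refine ⟨⟨?_, ?_, ?_, ?_⟩, ?_, ?_⟩
      · simp only; linarith
      · simp only; linarith
      · simp only; push_cast; linarith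
      · simp only; push_cast; linarith
      · rw [abs_of_nonneg (by linarith)]; ring
      · rw [abs_of_nonpos (by linarith)]; ring
  · have hσ : checkerboard i j = false := by simp [checkerboard, he]
    rw [Int.not_even_iff_odd] at he
    obtain ⟨m, hm⟩ := he
    obtain ⟨n, hi⟩ : ∃ n, i = m + n + 1 := ⟨i - m - 1, by ring⟩
    have hj : j = m - n := by omega
    subst hi hj
    cases b with
    | false =>
      refine tri_aux f g k m n 1 1 _ fun z hz => ?_
      obtain ⟨⟨h1, h2⟩, ⟨h3, h4⟩, h5⟩ := hz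
      rw [hσ] at h5
      simp only at h5
      push_cast at h1 h2 h3 h4 h5 ⊢
      rw [hdiv z.1] at h1 h2 h5
      rw [hdiv z.2] at h3 h4 h5
      have h1' := le_of_mul_le_mul_right h1 hh
      have h2' := le_of_mul_le_mul_right h2 hh
      have h3' := le_of_mul_le_mul_right h3 hh
      have h4' := le_of_mul_le_mul_right h4 hh
      rw [← sub_mul, ← sub_mul, ← add_mul] at h5
      have h5' := le_of_mul_le_mul_right (h5.trans_eq (one_mul h).symm) hh
      refine ⟨⟨?_, ?_, ?_, ?_⟩, ?_, ?_⟩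
      · simp only; linarith
      · simp only; linarith
      · simp only; linarith
      · simp only; linarith
      · rw [abs_of_nonneg (by linarith)]; ring
      · rw [abs_of_nonneg (by linarith)]; ring
    | true =>
      refine tri_aux f g k (m + 1) n (-1) (-1) _ fun z hz => ?_
      obtain ⟨⟨h1, h2⟩, ⟨h3, h4⟩, h5⟩ := hz
      rw [hσ] at h5
      simp only at h5
      push_cast at h1 h2 h3 h4 h5 ⊢
      rw [hdiv z.1] at h1 h2 h5
      rw [hdiv z.2] at h3 h4 h5
      have h1' := le_of_mul_le_mul_right h1 hh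
      have h2' := le_of_mul_le_mul_right h2 hh
      have h3' := le_of_mul_le_mul_right h3 hh
      have h4' := le_of_mul_le_mul_right h4 hh
      rw [← sub_mul, ← sub_mul, ← add_mul] at h5
      have h5' := le_of_mul_le_mul_right ((one_mul h).trans_le h5) hh
      refine ⟨⟨?_, ?_, ?_, ?_⟩, ?_, ?_⟩
      · simp only; push_cast; linarith
      · simp only; push_cast; linarith
      · simp only; linarith
      · simp only; linarith
      · rw [abs_of_nonpos (by linarith)]; ring
      · rw [abs_of_nonpos (by linarith)]; ring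

/-- scaling of the partial derivatives -/
lemma D1_scale (f : ℝ × ℝ → ℝ) (h : ℝ) (hf : Differentiable ℝ f) :
    D1 (fun z => f (h * z.1, h * z.2)) = fun z => h * D1 f (h * z.1, h * z.2) := by
  funext z
  have hL : HasFDerivAt (fun z : ℝ × ℝ => ((h * z.1, h * z.2) : ℝ × ℝ))
      (h • ContinuousLinearMap.id ℝ (ℝ × ℝ)) z :=
    (h • ContinuousLinearMap.id ℝ (ℝ × ℝ)).hasFDerivAt
  have := (hf (h * z.1, h * z.2)).hasFDerivAt.comp z hL
  have e : fderiv ℝ (fun z : ℝ × ℝ => f (h * z.1, h * z.2)) z =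
      (fderiv ℝ f (h * z.1, h * z.2)).comp (h • ContinuousLinearMap.id ℝ (ℝ × ℝ)) := this.fderiv
  unfold D1
  rw [e]
  simp only [ContinuousLinearMap.comp_apply, smul_apply,
    ContinuousLinearMap.id_apply, map_smul, smul_eq_mul]

lemma D2_scale (f : ℝ × ℝ → ℝ) (h : ℝ) (hf : Differentiable ℝ f) :
    D2 (fun z => f (h * z.1, h * z.2)) = fun z => h * D2 f (h * z.1, h * z.2) := by
  funext z
  have hL : HasFDerivAt (fun z : ℝ × ℝ => ((h * z.1, h * z.2) : ℝ × ℝ))
      (h • ContinuousLinearMap.id ℝ (ℝ × ℝ)) z :=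
    (h • ContinuousLinearMap.id ℝ (ℝ × ℝ)).hasFDerivAt
  have := (hf (h * z.1, h * z.2)).hasFDerivAt.comp z hL
  have e : fderiv ℝ (fun z : ℝ × ℝ => f (h * z.1, h * z.2)) z =
      (fderiv ℝ f (h * z.1, h * z.2)).comp (h • ContinuousLinearMap.id ℝ (ℝ × ℝ)) := this.fderiv
  unfold D2
  rw [e]
  simp only [ContinuousLinearMap.comp_apply, smul_apply,
    ContinuousLinearMap.id_apply, map_smul, smul_eq_mul]

lemma D_const_mul (f : ℝ × ℝ → ℝ) (a : ℝ) : D1 (fun z => a * f z) = (fun z => a * D1 f z) ∧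
    D2 (fun z => a * f z) = fun z => a * D2 f z := by
  constructor
  · funext z
    have : fderiv ℝ (a • f) z = (a • fderiv ℝ f) z := by rw [fderiv_const_smul_field]
    have : fderiv ℝ (fun z => a * f z) z = a • fderiv ℝ f z := this
    unfold D1
    rw [this]
    rfl
  · funext z
    have : fderiv ℝ (a • f) z = (a • fderiv ℝ f) z := by rw [fderiv_const_smul_field]
    have : fderiv ℝ (fun z => a * f z) z = a • fderiv ℝ f z := this
    unfold D2
    rw [this]
    rfl

lemma iter_scale {D : (ℝ × ℝ → ℝ) → ℝ × ℝ → ℝ} (h : ℝ)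
    (hD : ∀ (f : ℝ × ℝ → ℝ) (n m : WithTop ℕ∞), ContDiff ℝ n f → m + 1 ≤ n → ContDiff ℝ m (D f))
    (hs : ∀ f : ℝ × ℝ → ℝ, Differentiable ℝ f →
      D (fun z => f (h * z.1, h * z.2)) = fun z => h * D f (h * z.1, h * z.2))
    (hc : ∀ (f : ℝ × ℝ → ℝ) (a : ℝ), D (fun z => a * f z) = fun z => a * D f z) (i : ℕ) :
    ∀ (f : ℝ × ℝ → ℝ) (a : ℝ), ContDiff ℝ (i : WithTop ℕ∞) f →
      D^[i] (fun z => a * f (h * z.1, h * z.2)) =
        fun z => a * h ^ i * D^[i] f (h * z.1, h * z.2) := by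
  induction i with
  | zero =>
    intro f a _
    funext z
    simp
  | succ i ih =>
    intro f a hf
    have hd : Differentiable ℝ f := hf.differentiable (by simp)
    rw [Function.iterate_succ_apply, hc, hs f hd]
    have h1 := ih (D f) (a * h) (hD f _ _ hf (by push_cast; exact le_rfl))
    simp only [← mul_assoc]
    rw [h1]
    funext z
    rw [Function.iterate_succ_apply, pow_succ]
    ring

lemma pd_scale {f : ℝ × ℝ → ℝ} (hf : ContDiff ℝ 4 f) (h : ℝ) (i j : ℕ) (hij : i + j = 4)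
    (z : ℝ × ℝ) :
    pd i j (fun z => f (h * z.1, h * z.2)) z = h ^ 4 * pd i j f (h * z.1, h * z.2) := by
  have h2 := iter_scale (D := D2) h (fun _ _ _ h h' => contDiff_D2 h h') (fun f => D2_scale f h)
    (fun f a => (D_const_mul f a).2) j f 1
    (hf.of_le (by exact_mod_cast (by omega : j ≤ 4)))
  have h3 : ContDiff ℝ (i : WithTop ℕ∞) (D2^[j] f) :=
    contDiff_iter (fun _ _ _ h h' => contDiff_D2 h h') j i f
      (hf.of_le (by exact_mod_cast (by omega : i + j ≤ 4)))
  have h1 := iter_scale (D := D1) h (fun _ _ _ h h' => contDiff_D1 h h') (fun f => D1_scale f h)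
    (fun f a => (D_const_mul f a).1) i (D2^[j] f) (h ^ j) h3
  simp only [one_mul] at h2
  unfold pd
  rw [h2, h1, ← pow_add, show j + i = 4 by omega]

theorem approx {f : ℝ × ℝ → ℝ} (hf : ContDiff ℝ 4 f) {M : ℝ} (hM : D4Le f M) {h : ℝ}
    (hh : 0 < h) : ∃ s ∈ S31 checkerboard h, ∀ z, |f z - s z| ≤ 960 * M * h ^ 4 := by
  set F : ℝ × ℝ → ℝ := fun z => f (h * z.1, h * z.2) with hF
  have hFc : ContDiff ℝ 4 F := hf.comp (by fun_prop)
  have hFM : ∀ i j, i + j = 4 → ∀ z, |pd i j F z| ≤ M * h ^ 4 := by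
    intro i j hij z
    rw [hF, pd_scale hf h i j hij, abs_mul, abs_of_pos (pow_pos hh 4), mul_comm]
    exact mul_le_mul_of_nonneg_right (hM i j hij _) (pow_pos hh 4).le
  refine ⟨_, mem_S31 hh F (pd 1 0 F) (pd 0 1 F), fun z => ?_⟩
  have := sp_error hFc hFM (z.1 / h, z.2 / h)
  have e : F (z.1 / h, z.2 / h) = f z := by
    simp only [hF]
    congr 1
    ext <;> simp <;> field_simp
  rw [e] at this
  linarith

/-- The order is at most four, for every pattern. -/
theorem order_le {σ : ℤ → ℤ → Bool} {m : WithTop ℕ∞} {ρ : ℝ} (h : HasOrder σ m ρ) : ρ ≤ 4 := by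
  obtain ⟨C, hC⟩ := h
  by_contra hρ
  push Not at hρ
  have key : ∀ t : ℝ, 0 < t → t ≤ 1 → 3 / 512 * t ^ 4 ≤ C * 24 * (√2 * t) ^ ρ := by
    intro t ht ht1
    refine le_of_forall_gt_imp_ge_of_dense fun ε hε => ?_
    obtain ⟨s, ⟨-, hs⟩, hs2⟩ := hC t ht ht1 (fun z => z.1 ^ 4) (by fun_prop) 24
      (fun i j hij z => pd_x4 i j hij z) ε hε
    obtain ⟨p, hp, hpz⟩ := hs 0 0 false
    have hmem : ∀ a : ℝ, 0 ≤ a → a ≤ 1 → ((a * t, 0) : ℝ × ℝ) ∈ triangle σ t 0 0 false := by
      intro a ha ha1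
      have h1 : 0 ≤ a * t := by positivity
      have h2 : a * t ≤ t := by nlinarith
      refine ⟨⟨by simpa using h1, by simpa using h2⟩, ⟨by simp, by simpa using ht.le⟩, ?_⟩
      cases σ 0 0
      · simpa using h2
      · simpa using h1
    have hd := fourth_diff p hp (t / 4) 0
    have v : ∀ a : ℝ, 0 ≤ a → a ≤ 1 → |(a * t) ^ 4 - eval ![a * t, 0] p| ≤ ε := by
      intro a ha ha1
      have h1 := hs2 (a * t, 0)
      rw [hpz _ (hmem a ha ha1)] at h1
      exact h1
    have v0 := abs_le.1 (v 0 le_rfl zero_le_one)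
    have v1 := abs_le.1 (v (1 / 4) (by norm_num) (by norm_num))
    have v2 := abs_le.1 (v (2 / 4) (by norm_num) (by norm_num))
    have v3 := abs_le.1 (v (3 / 4) (by norm_num) (by norm_num))
    have v4 := abs_le.1 (v 1 (by norm_num) le_rfl)
    rw [show 4 * (t / 4) = 1 * t by ring, show 3 * (t / 4) = 3 / 4 * t by ring,
      show 2 * (t / 4) = 2 / 4 * t by ring, show t / 4 = 1 / 4 * t by ring,
      show (0 : ℝ) = 0 * t by ring] at hd
    simp only [show (0 : ℝ) * t = 0 by ring] at hd v0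
    have e : (1 * t) ^ 4 - 4 * (3 / 4 * t) ^ 4 + 6 * (2 / 4 * t) ^ 4 - 4 * (1 / 4 * t) ^ 4 + 0 ^ 4 =
        24 / 256 * t ^ 4 := by ring
    linarith [v0.1, v0.2, v1.1, v1.2, v2.1, v2.2, v3.1, v3.2, v4.1, v4.2]
  -- let `t → 0`
  have hlim : Tendsto (fun t : ℝ => C * 24 * √2 ^ ρ * t ^ (ρ - 4)) (𝓝[>] 0) (𝓝 0) := by
    have h1 : Tendsto (fun t : ℝ => t ^ (ρ - 4)) (𝓝[>] 0) (𝓝 0) := by
      have h2 : ContinuousAt (fun t : ℝ => t ^ (ρ - 4)) 0 :=
        Real.continuousAt_rpow_const 0 _ (Or.inr (by linarith))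
      have h3 := h2.tendsto
      rw [Real.zero_rpow (by linarith)] at h3
      exact h3.mono_left nhdsWithin_le_nhds
    simpa using h1.const_mul (C * 24 * √2 ^ ρ)
  have hge : ∀ᶠ t : ℝ in 𝓝[>] 0, 3 / 512 ≤ C * 24 * √2 ^ ρ * t ^ (ρ - 4) := by
    filter_upwards [self_mem_nhdsWithin, Ioc_mem_nhdsGT (zero_lt_one' ℝ)] with t ht ht1
    have ht0 : 0 < t := ht
    have h1 := key t ht0 ht1.2
    rw [Real.mul_rpow (by positivity) ht0.le] at h1
    have h2 : t ^ ρ = t ^ (ρ - 4) * t ^ 4 := by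
      rw [← Real.rpow_natCast t 4, ← Real.rpow_add ht0]
      norm_num
    rw [h2] at h1
    have h3 : 0 < t ^ 4 := by positivity
    by_contra hlt
    push Not at hlt
    nlinarith [mul_lt_mul_of_pos_right hlt h3]
  have := le_of_tendsto_of_tendsto tendsto_const_nhds hlim hge
  norm_num at this

/-- **Theorem.** (1) For every `f ∈ C⁴(ℝ²)` with `‖D⁴ f‖ ≤ M` and every `h > 0` some `s ∈ S₃¹(Δ_h)`, for the
checkerboard pattern, has `|f - s| ≤ 960 M h⁴` on the plane.  (2) For the checkerboard pattern the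
approximation order of `S₃¹(Δ_h)`, the largest `ρ` with `dist (f, S₃¹(Δ_h)) ≤ C ‖D⁴ f‖ |Δ_h| ^ ρ` for all
`f ∈ C^m`, is equal to four, for every `m ≥ 4` (finite, `∞` or `ω`).  (3) It is at most four for all
patterns. -/
theorem result :
    (∀ f : ℝ × ℝ → ℝ, ContDiff ℝ 4 f → ∀ M : ℝ, D4Le f M → ∀ h : ℝ, 0 < h →
      ∃ s ∈ S31 checkerboard h, ∀ z, |f z - s z| ≤ 960 * M * h ^ 4) ∧
    (∀ m : WithTop ℕ∞, 4 ≤ m → IsGreatest {ρ : ℝ | HasOrder checkerboard m ρ} 4) ∧
    ∀ (σ : ℤ → ℤ → Bool) (m : WithTop ℕ∞) (ρ : ℝ), HasOrder σ m ρ → ρ ≤ 4 := by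
  refine ⟨fun f hf M hM h hh => approx hf hM hh, fun m hm => ⟨⟨240, ?_⟩, fun ρ h => order_le h⟩,
    fun σ m ρ h => order_le h⟩
  intro h hh _ f hf M hM ε hε
  obtain ⟨s, hs, hs2⟩ := approx (hf.of_le hm) hM hh
  refine ⟨s, hs, fun z => (hs2 z).trans (le_trans (le_of_eq ?_) hε.le)⟩
  have h1 : (√2 * h) ^ (4 : ℝ) = 4 * h ^ 4 := by
    rw [show (4 : ℝ) = ((4 : ℕ) : ℝ) by norm_num, Real.rpow_natCast, mul_pow]
    have : (√2 : ℝ) ^ 4 = 4 := by
      have h2 : (√2 : ℝ) ^ 2 = 2 := Real.sq_sqrt (by norm_num)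
      calc (√2 : ℝ) ^ 4 = (√2 ^ 2) ^ 2 := by ring
        _ = 4 := by rw [h2]; norm_num
    rw [this]
    norm_num
  rw [h1]
  ring

end Pool.Agent.Results.MP_424b4b_an.CheckerboardMesh
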